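import Pool.Agent.helper36.PP.SpecM
import Pool.Agent.helper31.PP.FL

/-!
# Project pp: module FLX (line fields and attracted critical values, quantitative form)
-/

set_option autoImplicit false

open Complex Metric Set Filter Topology MeasureTheory MPS MQ Pool.Agent.helper98.ILF

noncomputable section

namespace PPS

/-- invariant forms are pairs. -/
theorem FLX_pr {f : Polynomial ℂ} {A : ℝ} {μ : ℂ → ℂ} (h : LF f A μ) : PR f A μ (fun _ => 0) := by
  refine ⟨h.meas, measurable_const, h.bd, fun z => by simp, h.supp, fun z hz => absurd rfl hz, ?_⟩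
  filter_upwards [h.inv] with z hz
  rw [add_zero]
  exact hz

/-- integrability of a pair. -/
theorem FLX_int (hCTA : CTA_stmt) {f : Polynomial ℂ} {A : ℝ} {μ β : ℂ → ℂ} (h : PR f A μ β)
    (b : ℂ) : Integrable (fun z => (μ z + β z) / (z - b)) := by
  have h1 := (hCTA μ A h.measμ h.bdμ h.suppμ).1 b
  have h2 := (hCTA β A h.measβ h.bdβ h.suppβ).1 b
  have h3 : (fun z => (μ z + β z) / (z - b)) = fun z => μ z / (z - b) + β z / (z - b) := by
    funext z
    rw [add_div]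
  rw [h3]
  exact h1.add h2

/-- linearity of the Cauchy transform. -/
theorem FLX_lin {ι : Type} [Fintype ι] (h : ι → ℂ → ℂ) (l : ι → ℂ) (b : ℂ)
    (hi : ∀ i, Integrable (fun z => h i z / (z - b))) :
    NLF.CT (fun z => ∑ i, l i * h i z) b = ∑ i, l i * NLF.CT (h i) b := by
  unfold NLF.CT
  have h3 : ∀ z : ℂ, (∑ i, l i * h i z) / (z - b) = ∑ i, l i * (h i z / (z - b)) := by
    intro z
    rw [Finset.sum_div]
    refine Finset.sum_congr rfl fun i _ => ?_
    rw [mul_div_assoc]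
  rw [integral_congr_ae (Eventually.of_forall h3),
    integral_finsetSum _ (fun i _ => (hi i).const_mul _)]
  refine Finset.sum_congr rfl fun i _ => ?_
  rw [integral_const_mul]

/-- the multiplier at all points of a cycle. -/
theorem FLX_mult (hZCY : ZCY_stmt) {f : Polynomial ℂ} {k : ℕ} [NeZero k] {z : ℂ} (hc : Cyc f k z)
    {b : ZMod k → ℂ} (hstep : ∀ i, f.eval (b i) = b (i + 1)) (h0 : b 0 = z) (i : ZMod k) :
    it f k (b i) = b i ∧ deriv (it f k) (b i) = rho f b := by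
  have hit : ∀ (i : ZMod k) (m : ℕ), (fun w : ℂ => f.eval w)^[m] (b i) = b (i + (m : ZMod k)) := by
    intro i m
    induction m with
    | zero => simp
    | succ m ih =>
      rw [Function.iterate_succ_apply', ih]
      show f.eval (b (i + (m : ZMod k))) = _
      rw [hstep]
      congr 1
      push_cast
      ring
  have hval : ∀ i : ZMod k, ((i.val : ℕ) : ZMod k) = i := fun i => ZMod.natCast_zmod_val i
  have hbi : b i = (fun w : ℂ => f.eval w)^[i.val] z := by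
    rw [← h0, hit, zero_add, hval]
  have hk0 := hc.1
  have hper : z ∈ Function.periodicPts (fun w : ℂ => f.eval w) := by
    apply Function.minimalPeriod_pos_iff_mem_periodicPts.mp
    rw [hc.2]
    exact hk0
  have hc' : Cyc f k (b i) := by
    refine ⟨hk0, ?_⟩
    rw [hbi, Function.minimalPeriod_apply_iterate hper, hc.2]
  obtain ⟨b', -, -, -, h5, h6, -⟩ := hZCY f k (b i) hc'
  have hb' : ∀ j : ZMod k, b' j = b (i + j) := by
    intro j
    have h7 := h5 j.val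
    rw [hval, hit, hval] at h7
    exact h7
  refine ⟨?_, ?_⟩
  · show (fun w : ℂ => f.eval w)^[k] (b i) = b i
    rw [hit]
    simp
  · have h8 : rho f b' = rho f b := by
      unfold rho
      have h9 : ∀ j : ZMod k, fd f (b' j) = fd f (b (i + j)) := fun j => by rw [hb']
      rw [Finset.prod_congr rfl fun j _ => h9 j]
      exact Equiv.prod_comp (Equiv.addLeft i) (fun j => fd f (b j))
    rw [← h8, h6]
    rfl

/-- the inequality for the pair of a ring. -/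
theorem FLX_row (hINQ2 : INQ2_stmt) {f : Polynomial ℂ} {k : ℕ} [NeZero k] {b g : ZMod k → ℂ}
    {A r : ℝ} {F P T : Finset ℂ} (hn : 2 ≤ f.natDegree) (hC : IsCyc f b) (hRD : RD f A F P T r)
    {x c₀ c₁ : ℂ} {s : ℝ} {μ β : ℂ → ℂ} (hx : x ∈ F ∪ P) (hR : RowX f A r x c₀ c₁ s μ β)
    (hk : 0 < k) (hm : ∀ i, it f k (b i) = b i ∧ deriv (it f k) (b i) = rho f b)
    (h1 : 1 < ‖rho f b‖) (hg : Exact f b g) :
    ‖∫ z : ℂ, (μ z + β z) * er f b g z‖ ≤ 2 * Real.pi * Real.log ‖rho f b‖ := by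
  have hout : ∀ i, r < ‖b i - x‖ := by
    intro i
    by_contra hcon
    push Not at hcon
    have h2 := hRD.rep x hx (b i) (by rw [mem_closedBall, dist_eq_norm]; exact hcon) k hk (hm i).1
    rw [(hm i).2] at h2
    linarith
  have hδ : ∃ δ > (0 : ℝ), ∀ i, δ ≤ ‖b i - x‖ - r := by
    have hev : ∀ᶠ e in 𝓝[>] (0 : ℝ), ∀ i : ZMod k, e ≤ ‖b i - x‖ - r := by
      rw [Filter.eventually_all]
      intro i
      have h2 : ∀ᶠ e in 𝓝[>] (0 : ℝ), e < ‖b i - x‖ - r :=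
        nhdsWithin_le_nhds (gt_mem_nhds (by have := hout i; linarith))
      filter_upwards [h2] with e he
      exact he.le
    obtain ⟨e, he, hepos⟩ := (hev.and self_mem_nhdsWithin).exists
    exact ⟨e, hepos, he⟩
  obtain ⟨δ, hδ0, hδ⟩ := hδ
  refine hINQ2 k f b g A δ μ β hn hC hR.pr hδ0 ?_ ?_ h1.le hg
  · intro i z hz
    have h2 := (hR.sβ z hz).2
    have h3 := hδ i
    have h4 : ‖b i - x‖ ≤ ‖z - b i‖ + ‖z - x‖ := by
      have : b i - x = -(z - b i) + (z - x) := by ring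
      rw [this]
      refine (norm_add_le _ _).trans ?_
      rw [norm_neg]
    linarith
  · intro i
    exact hR.out (b i) (hout i)

/-- the inequality for an invariant form. -/
theorem FLX_lfi (hINQ2 : INQ2_stmt) {f : Polynomial ℂ} {k : ℕ} [NeZero k] {b g : ZMod k → ℂ}
    {A : ℝ} (hn : 2 ≤ f.natDegree) (hC : IsCyc f b) {μ : ℂ → ℂ} (h : LF f A μ)
    (h1 : 1 < ‖rho f b‖) (hg : Exact f b g) :
    ‖∫ z : ℂ, (μ z + 0) * er f b g z‖ ≤ 2 * Real.pi * Real.log ‖rho f b‖ := by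
  refine hINQ2 k f b g A 1 μ (fun _ => 0) hn hC (FLX_pr h) one_pos ?_ ?_ h1.le hg
  · intro i z hz
    exact absurd rfl hz
  · intro i
    refine ⟨?_, ?_⟩
    · simp [NLF.CT]
    · simp

/-- pairs vanish near the attracting periodic points (rings). -/
theorem FLX_vanR {f : Polynomial ℂ} {A r : ℝ} {F P T : Finset ℂ} (hRD : RD f A F P T r)
    {x c₀ c₁ : ℂ} {s : ℝ} {μ β : ℂ → ℂ} (hx : x ∈ F ∪ P) (hR : RowX f A r x c₀ c₁ s μ β)
    {p : ℂ} (hp : p ∈ P) : ∃ ε > (0 : ℝ), ∀ z ∈ ball p ε, μ z = 0 := by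
  obtain ⟨ε, hε, h⟩ := hRD.nbh p hp 0
  refine ⟨ε, hε, ?_⟩
  intro z hz
  by_contra hcon
  obtain ⟨m, -, h2⟩ := hR.sμ z hcon
  have h3 : ‖z - it f 0 p‖ < ε := by
    rw [mem_ball, dist_eq_norm] at hz
    exact hz
  exact (h z h3).2 m x hx h2

/-- pairs vanish near the attracting periodic points (line fields). -/
theorem FLX_vanL {f : Polynomial ℂ} {A r : ℝ} {F P T : Finset ℂ} (hRD : RD f A F P T r)
    {μ : ℂ → ℂ} (hμ : LF f A μ)
    {p : ℂ} (hp : p ∈ P) : ∃ ε > (0 : ℝ), ∀ z ∈ ball p ε, μ z = 0 := by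
  obtain ⟨ε, hε, h⟩ := hRD.nbh p hp 0
  refine ⟨ε, hε, ?_⟩
  intro z hz
  by_contra hcon
  have h3 : ‖z - it f 0 p‖ < ε := by
    rw [mem_ball, dist_eq_norm] at hz
    exact hz
  exact (h z h3).1 (hμ.julia z hcon)

/-- differentiability of the Cauchy transform. -/
theorem FLX_dif (hCTA : CTA_stmt) {f : Polynomial ℂ} {A : ℝ} {μ β : ℂ → ℂ} (h : PR f A μ β) {p : ℂ}
    (hv : ∃ ε > (0 : ℝ), ∀ z ∈ ball p ε, μ z = 0) : DifferentiableAt ℂ (NLF.CT μ) p := by
  obtain ⟨ε, hε, hv⟩ := hv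
  obtain ⟨-, -, -, -, h5, -⟩ := hCTA μ A h.measμ h.bdμ h.suppμ
  exact (h5 (ball p ε) isOpen_ball hv).differentiableAt (isOpen_ball.mem_nhds (mem_ball_self hε))

/-- counting: the critical values. -/
theorem FLX_card {V : Set ℂ} (J : Set ℂ) (T F : Finset ℂ)
    (hT : ∀ v, v ∈ T ↔ v ∈ V) (hF : ∀ v, v ∈ F ↔ v ∈ T ∧ v ∉ J) :
    (V ∩ J).ncard + F.card = T.card := by
  classical
  have h1 : (V ∩ J).ncard = (T.filter (fun v => v ∈ J)).card := by
    rw [← Set.ncard_coe_finset]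
    congr 1
    ext v
    simp [hT]
  have h2 : F = T.filter (fun v => ¬ v ∈ J) := by
    ext v
    rw [hF, Finset.mem_filter]
  rw [h1, h2]
  exact Finset.card_filter_add_card_filter_not _

/-- the data. -/
theorem FLX_data (hPRB : PRB_stmt) (hJBD : JBD_stmt) (hRAD : RAD_stmt) (hRADX : RADX_stmt)
    (hROW : ROW_stmt) (f : Polynomial ℂ) (hn : 2 ≤ f.natDegree)
    (hcv : ∀ v ∈ CV f, v ∈ juliaSet (fun z : ℂ => f.eval z) ∨ Esc f v ∨ ∃ p, APt f p ∧ Att f p v) :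
    ∃ (A r : ℝ) (F P T : Finset ℂ) (s s' : ℂ → ℝ) (μF βF μP βP : ℂ → ℂ → ℂ),
      (∀ z ∈ juliaSet (fun z : ℂ => f.eval z), ‖z‖ < A) ∧ RD f A F P T r ∧
      (∀ v, v ∈ T ↔ v ∈ CV f) ∧ (∀ v, v ∈ F ↔ v ∈ T ∧ v ∉ juliaSet (fun z : ℂ => f.eval z)) ∧
      (∀ p ∈ P, APt f p) ∧ (∀ v ∈ F, Esc f v ∨ ∃ p ∈ P, Att f p v) ∧
      (∀ x ∈ F, 0 < s x ∧ RowX f A r x 1 0 (s x) (μF x) (βF x)) ∧
      (∀ p ∈ P, 0 < s' p ∧ RowX f A r p 0 1 (s' p) (μP p) (βP p)) := by
  classical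
  obtain ⟨A₀, hA₀⟩ := hJBD f hn
  obtain ⟨-, -, -, -, hVfin, -⟩ := hPRB f (by omega)
  obtain ⟨a, ha, hBd⟩ := FL_bd f hn
  obtain ⟨A₁, hA₁, hR⟩ := hRAD f.natDegree a hn ha
  obtain ⟨-, hR2, -⟩ := hR f hBd
  set T : Finset ℂ := hVfin.toFinset with hT
  have hTmem : ∀ v, v ∈ T ↔ v ∈ CV f := fun v => hVfin.mem_toFinset
  set F : Finset ℂ := T.filter (fun v => v ∉ juliaSet (fun z : ℂ => f.eval z)) with hF
  have hFmem : ∀ v, v ∈ F ↔ v ∈ T ∧ v ∉ juliaSet (fun z : ℂ => f.eval z) := fun v => by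
    rw [hF, Finset.mem_filter]
  have hch : ∀ v : ℂ, ∃ p : ℂ, (∃ p, APt f p ∧ Att f p v) → APt f p ∧ Att f p v := by
    intro v
    by_cases h : ∃ p, APt f p ∧ Att f p v
    · obtain ⟨p, hp⟩ := h
      exact ⟨p, fun _ => hp⟩
    · exact ⟨0, fun h' => absurd h' h⟩
  choose pc hpc using hch
  set P : Finset ℂ := (F.filter (fun v => ∃ p, APt f p ∧ Att f p v)).image pc with hP
  have hPA : ∀ p ∈ P, APt f p := by
    intro p hp
    rw [hP, Finset.mem_image] at hp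
    obtain ⟨v, hv, rfl⟩ := hp
    exact (hpc v (Finset.mem_filter.mp hv).2).1
  have hFA : ∀ v ∈ F, Esc f v ∨ ∃ p ∈ P, Att f p v := by
    intro v hv
    have h1 := (hFmem v).mp hv
    rcases hcv v ((hTmem v).mp h1.1) with h2 | h2 | h2
    · exact absurd h2 h1.2
    · exact Or.inl h2
    · refine Or.inr ⟨pc v, ?_, (hpc v h2).2⟩
      rw [hP, Finset.mem_image]
      exact ⟨v, Finset.mem_filter.mpr ⟨hv, h2⟩, rfl⟩
  set A : ℝ := max A₀ (max A₁ (1 + ∑ x ∈ F ∪ P, ‖x‖)) with hA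
  have hAJ : ∀ z ∈ juliaSet (fun z : ℂ => f.eval z), ‖z‖ < A := fun z hz =>
    (hA₀ z hz).trans_le (le_max_left _ _)
  have hAx : ∀ x ∈ F ∪ P, ‖x‖ < A := by
    intro x hx
    have h1 : ‖x‖ ≤ ∑ x ∈ F ∪ P, ‖x‖ :=
      Finset.single_le_sum (f := fun x : ℂ => ‖x‖) (fun _ _ => norm_nonneg _) hx
    have h2 : 1 + ∑ x ∈ F ∪ P, ‖x‖ ≤ A := (le_max_right _ _).trans (le_max_right _ _)
    linarith
  have hinv : ∀ y : ℂ, ‖f.eval y‖ < A → ‖y‖ < A := fun y =>
    hR2 A y ((le_max_left _ _).trans (le_max_right _ _))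
  obtain ⟨r, hRD⟩ := hRADX f A F P T hn hPA hFA hAx
  have hrow : ∀ (c₀ c₁ : ℂ) (x : ℂ), ∃ (s : ℝ) (μ β : ℂ → ℂ), x ∈ F ∪ P →
      0 < s ∧ RowX f A r x c₀ c₁ s μ β := by
    intro c₀ c₁ x
    by_cases hx : x ∈ F ∪ P
    · obtain ⟨M, hM⟩ := hRD.wd x hx
      obtain ⟨s, hs, μ, β, h⟩ := hROW f A r x c₀ c₁ M hn hinv hRD.r0 (hRD.sub x hx) hM
      exact ⟨s, μ, β, fun _ => ⟨hs, h⟩⟩
    · exact ⟨0, fun _ => 0, fun _ => 0, fun h => absurd h hx⟩
  choose s μF βF h1 using hrow 1 0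
  choose s' μP βP h2 using hrow 0 1
  exact ⟨A, r, F, P, T, s, s', μF, βF, μP, βP, hAJ, hRD, hTmem, hFmem, hPA, hFA,
    fun x hx => h1 x (Finset.mem_union_left _ hx), fun p hp => h2 p (Finset.mem_union_right _ hp)⟩

/-- the linear algebra: the values of the Cauchy transforms control the coefficients. -/
theorem FLX_mat (hCTA : CTA_stmt) (hMAT : MAT_stmt) (hKER : KER_stmt)
    {f : Polynomial ℂ} (hn : 2 ≤ f.natDegree) {A r : ℝ} {F P T : Finset ℂ} {s s' : ℂ → ℝ}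
    {μF βF μP βP : ℂ → ℂ → ℂ} (hRD : RD f A F P T r) (hT : ∀ v, v ∈ T ↔ v ∈ CV f)
    (hF : ∀ v, v ∈ F ↔ v ∈ T ∧ v ∉ juliaSet (fun z : ℂ => f.eval z))
    (hPA : ∀ p ∈ P, APt f p) (hFA : ∀ v ∈ F, Esc f v ∨ ∃ p ∈ P, Att f p v)
    (hRF : ∀ x ∈ F, 0 < s x ∧ RowX f A r x 1 0 (s x) (μF x) (βF x))
    (hRP : ∀ p ∈ P, 0 < s' p ∧ RowX f A r p 0 1 (s' p) (μP p) (βP p))
    {N : ℕ} {μ : Fin N → ℂ → ℂ} (hLF : ∀ i, LF f A (μ i))
    (hind : ∀ l : Fin N → ℂ, (∀ᵐ z : ℂ, ∑ i, l i * μ i z = 0) → l = 0)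
    (hN : N + F.card = T.card) :
    ∃ (ι : Type) (_ : Fintype ι) (m b : ι → ℂ → ℂ), (∀ i, PR f A (m i) (b i)) ∧
      (∀ i, (∃ j, m i = μ j ∧ b i = fun _ => 0) ∨
        ∃ (x c₀ c₁ : ℂ) (t : ℝ), x ∈ F ∪ P ∧ RowX f A r x c₀ c₁ t (m i) (b i)) ∧
      ∃ C > (0 : ℝ), ∀ (w : ℂ → ℂ), ∀ v ∈ T,
        ‖w v‖ ≤ C * ∑ i, ‖∑ v ∈ T, NLF.CT (fun z => m i z + b i z) v * w v‖ := by
  classical
  have hcard : Fintype.card (Fin N ⊕ ↥F) = Fintype.card ↥T := by
    rw [Fintype.card_sum, Fintype.card_fin, Fintype.card_coe, Fintype.card_coe, hN]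
  let e : (Fin N ⊕ ↥F) ≃ ↥T := Fintype.equivOfCardEq hcard
  have hsumT : ∀ G : ℂ → ℂ, ∑ v ∈ T, G v = ∑ j, G (e j : ℂ) := by
    intro G
    rw [← Finset.sum_coe_sort T G]
    exact (Equiv.sum_comp e (fun v : T => G (v : ℂ))).symm
  let m : ((Fin N ⊕ ↥F) ⊕ ↥P) → ℂ → ℂ :=
    Sum.elim (Sum.elim (fun j => μ j) (fun x => μF x)) (fun p => μP p)
  let b : ((Fin N ⊕ ↥F) ⊕ ↥P) → ℂ → ℂ :=
    Sum.elim (Sum.elim (fun _ _ => 0) (fun x => βF x)) (fun p => βP p)
  have hPR : ∀ i, PR f A (m i) (b i) := by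
    rintro ((j | x) | p)
    · exact FLX_pr (hLF j)
    · exact (hRF x x.2).2.pr
    · exact (hRP p p.2).2.pr
  have hkind : ∀ i, (∃ j, m i = μ j ∧ b i = fun _ => 0) ∨
      ∃ (x c₀ c₁ : ℂ) (t : ℝ), x ∈ F ∪ P ∧ RowX f A r x c₀ c₁ t (m i) (b i) := by
    rintro ((j | x) | p)
    · exact Or.inl ⟨j, rfl, rfl⟩
    · exact Or.inr ⟨x, 1, 0, s x, Finset.mem_union_left _ x.2, (hRF x x.2).2⟩
    · exact Or.inr ⟨p, 0, 1, s' p, Finset.mem_union_right _ p.2, (hRP p p.2).2⟩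
  have hI : ∀ i v, Integrable (fun z => (m i z + b i z) / (z - v)) := fun i v =>
    FLX_int hCTA (hPR i) v
  have hIm : ∀ i v, Integrable (fun z => m i z / (z - v)) := fun i v =>
    (hCTA (m i) A (hPR i).measμ (hPR i).bdμ (hPR i).suppμ).1 v
  have hdif : ∀ i, ∀ p ∈ P, DifferentiableAt ℂ (NLF.CT (m i)) p := by
    intro i p hp
    refine FLX_dif hCTA (hPR i) ?_
    rcases hkind i with ⟨j, h1, -⟩ | ⟨x, c₀, c₁, t, hx, h1⟩
    · rw [h1]
      exact FLX_vanL hRD (hLF j) hp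
    · exact FLX_vanR hRD hx h1 hp
  let M : Matrix ((Fin N ⊕ ↥F) ⊕ ↥P) ((Fin N ⊕ ↥F) ⊕ ↥P) ℂ := fun i =>
    Sum.elim (fun c => NLF.CT (fun z => m i z + b i z) (e c : ℂ)) (fun p => deriv (NLF.CT (m i)) p)
  obtain ⟨C, hC, hM⟩ := hMAT ((Fin N ⊕ ↥F) ⊕ ↥P) M (by
    intro l hl
    set lF : ℂ → ℂ := fun x => if h : x ∈ F then l (Sum.inl (Sum.inr ⟨x, h⟩)) else 0 with hlF
    set lP : ℂ → ℂ := fun x => if h : x ∈ P then l (Sum.inr ⟨x, h⟩) else 0 with hlP
    have hlF' : ∀ x : ↥F, lF x = l (Sum.inl (Sum.inr x)) := by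
      intro x
      rw [hlF]
      simp only [x.2, dif_pos]
    have hlP' : ∀ x : ↥P, lP x = l (Sum.inr x) := by
      intro x
      rw [hlP]
      simp only [x.2, dif_pos]
    have hker := hKER f A r F P T s s' μF βF μP βP N μ hn hRD hT
      (fun v hv => ((hF v).mp hv).1) hPA hFA hRF hRP hLF (fun j => l (Sum.inl (Sum.inl j))) lF lP
      (fun z => ∑ i, l i * m i z) (fun z => ∑ i, l i * b i z) (by
        intro z
        show ∑ i, l i * m i z = _
        rw [Fintype.sum_sum_type, Fintype.sum_sum_type]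
        congr 1
        · congr 1
          rw [← Finset.sum_coe_sort F]
          refine Finset.sum_congr rfl fun x _ => ?_
          rw [hlF']
          rfl
        · rw [← Finset.sum_coe_sort P]
          refine Finset.sum_congr rfl fun x _ => ?_
          rw [hlP']
          rfl) (by
        intro z
        show ∑ i, l i * b i z = _
        rw [Fintype.sum_sum_type, Fintype.sum_sum_type]
        have h0 : ∑ j : Fin N, l (Sum.inl (Sum.inl j)) * b (Sum.inl (Sum.inl j)) z = 0 :=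
          Finset.sum_eq_zero fun j _ => by
            show l (Sum.inl (Sum.inl j)) * 0 = 0
            rw [mul_zero]
        rw [h0, zero_add]
        congr 1
        · rw [← Finset.sum_coe_sort F]
          refine Finset.sum_congr rfl fun x _ => ?_
          rw [hlF']
          rfl
        · rw [← Finset.sum_coe_sort P]
          refine Finset.sum_congr rfl fun x _ => ?_
          rw [hlP']
          rfl) (by
        intro v hv
        have h1 : (fun z => (∑ i, l i * m i z) + ∑ i, l i * b i z) =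
            fun z => ∑ i, l i * (fun z => m i z + b i z) z := by
          funext z
          rw [← Finset.sum_add_distrib]
          refine Finset.sum_congr rfl fun i _ => ?_
          ring
        show NLF.CT (fun z => (∑ i, l i * m i z) + ∑ i, l i * b i z) v = 0
        rw [h1, FLX_lin (fun i z => m i z + b i z) l v (fun i => hI i v)]
        have h2 := hl (Sum.inl (e.symm ⟨v, (hT v).mpr hv⟩))
        have h3 : ∀ i, M i (Sum.inl (e.symm ⟨v, (hT v).mpr hv⟩)) =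
            NLF.CT (fun z => m i z + b i z) v := by
          intro i
          show NLF.CT (fun z => m i z + b i z) (e (e.symm ⟨v, (hT v).mpr hv⟩) : ℂ) = _
          rw [Equiv.apply_symm_apply]
        rw [← h2]
        refine Finset.sum_congr rfl fun i _ => ?_
        rw [h3]) (by
        intro p hp
        have h1 : NLF.CT (fun z => ∑ i, l i * m i z) = fun v => ∑ i, l i * NLF.CT (m i) v := by
          funext v
          exact FLX_lin m l v (fun i => hIm i v)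
        show deriv (NLF.CT (fun z => ∑ i, l i * m i z)) p = 0
        rw [h1, deriv_fun_sum fun i _ => (hdif i p hp).const_mul _]
        rw [← hl (Sum.inr ⟨p, hp⟩)]
        refine Finset.sum_congr rfl fun i _ => ?_
        rw [deriv_const_mul _ (hdif i p hp)]
        rfl)
    obtain ⟨k1, k2, k3⟩ := hker
    have k4 := hind _ k3
    funext i
    rcases i with (j | x) | p
    · exact congrFun k4 j
    · rw [← hlF' x]
      exact k1 x x.2
    · rw [← hlP' p]
      exact k2 p p.2)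
  refine ⟨(Fin N ⊕ ↥F) ⊕ ↥P, inferInstance, m, b, hPR, hkind, C, hC, ?_⟩
  intro w v hv
  have h1 := hM (Sum.elim (fun c => w (e c : ℂ)) (fun _ => 0)) (Sum.inl (e.symm ⟨v, hv⟩))
  have h2 : (Sum.elim (fun c => w (e c : ℂ)) (fun _ => 0) : ((Fin N ⊕ ↥F) ⊕ ↥P) → ℂ)
      (Sum.inl (e.symm ⟨v, hv⟩)) = w v := by
    show w (e (e.symm ⟨v, hv⟩) : ℂ) = w v
    rw [Equiv.apply_symm_apply]
  rw [h2] at h1
  refine h1.trans (le_of_eq ?_)
  congr 1
  refine Finset.sum_congr rfl fun i _ => ?_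
  congr 1
  rw [Fintype.sum_sum_type, hsumT]
  have h0 : ∑ p : ↥P, M i (Sum.inr p) *
      (Sum.elim (fun c => w (e c : ℂ)) (fun _ => 0) : ((Fin N ⊕ ↥F) ⊕ ↥P) → ℂ) (Sum.inr p) = 0 :=
    Finset.sum_eq_zero fun p _ => by
      show M i (Sum.inr p) * 0 = 0
      rw [mul_zero]
  rw [h0, add_zero]
  rfl

theorem FLX (hTHB0 : THB0_stmt) (hPRB : PRB_stmt) (hJBD : JBD_stmt) (hRAD : RAD_stmt)
    (hCTA : CTA_stmt) (hMAT : MAT_stmt) (hERV : ERV_stmt) (hINQ2 : INQ2_stmt) (hZCY : ZCY_stmt)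
    (hTG : TG_stmt) (hROW : ROW_stmt) (hRADX : RADX_stmt) (hKER : KER_stmt)
    (hMI : MPS.MI_stmt) : FLX_stmt := by
  intro f hn hcv μ hμ hind d hd
  obtain ⟨A, r, F, P, T, s₀, s', μF, βF, μP, βP, hAJ, hRD, hT, hF, hPA, hFA, hRF, hRP⟩ :=
    FLX_data hPRB hJBD hRAD hRADX hROW f hn hcv
  have hLF : ∀ i, LF f A (μ i) := fun i => FL_lf hAJ (hμ i)
  obtain ⟨ι, hι, m, bb, hPR, hkind, C, hC, hM⟩ := FLX_mat hCTA hMAT hKER hn hRD hT hF hPA hFA hRF
    hRP hLF hind (FLX_card _ T F hT hF)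
  -- constants
  obtain ⟨a, ha, hBd⟩ := FL_bd f hn
  obtain ⟨R, hR, ε, hε, hTH⟩ := hTHB0 f.natDegree a d hn ha hd
  obtain ⟨hinv, hTH⟩ := hTH f hBd
  obtain ⟨η₂, hη₂, hfix⟩ := FL_fix f hn
  have hR0 : (0 : ℝ) ≤ R := by linarith
  set D : ℝ := ∑ v ∈ T, ∫ z in ball (0 : ℂ) R, 1 / ‖z - v‖ with hD
  have hD0 : 0 ≤ D := Finset.sum_nonneg fun j _ => integral_nonneg fun z => by positivity
  set K₁ : ℝ := 2 * Real.pi + 4 * (C * (Fintype.card ι * (2 * Real.pi)) * D) with hK₁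
  have hK₁0 : 0 < K₁ := by positivity
  refine ⟨min (ε / K₁) η₂, by positivity, ?_⟩
  intro k z hcyc h1 hdist
  have hcyc' := hcyc
  obtain ⟨hk0, hper⟩ := hcyc
  have hmlt0 : mlt f k z ≠ 0 := by
    intro h0
    rw [h0, norm_zero] at h1
    linarith
  by_cases hk2 : 2 ≤ k
  · -- period at least two
    refine (min_le_left _ _).trans ?_
    have : NeZero k := ⟨by omega⟩
    obtain ⟨b, -, hstep, hb0, -, hrho, hIs⟩ := hZCY f k z hcyc'
    have hC' := hIs hmlt0
    have hmul := fun i => FLX_mult hZCY hcyc' hstep hb0 i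
    rw [← hrho] at h1 hdist ⊢
    have hrho1 : rho f b ≠ 1 := by
      intro h
      rw [h, norm_one] at h1
      exact lt_irrefl _ h1
    obtain ⟨g, hg, -⟩ := hTG f.natDegree k f b hn rfl hC' hrho1
    obtain ⟨s, hs⟩ := hERV k f b g T hn hC' hg hT
    set Lg : ℝ := Real.log ‖rho f b‖ with hLg
    have hLg0 : 0 < Lg := Real.log_pos h1
    have hI : ∀ i, ‖∑ v ∈ T, NLF.CT (fun z => m i z + bb i z) v * s v‖ ≤ 2 * Real.pi * Lg := by
      intro i
      have h2 : ‖∫ z : ℂ, (m i z + bb i z) * er f b g z‖ ≤ 2 * Real.pi * Lg := by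
        rcases hkind i with ⟨j, h3, h4⟩ | ⟨x, c₀, c₁, t, hx, h3⟩
        · rw [h3, h4]
          exact FLX_lfi hINQ2 hn hC' (hLF j) h1 hg
        · exact FLX_row hINQ2 hn hC' hRD hx h3 hk0 hmul h1 hg
      have h3 : ∫ z : ℂ, (m i z + bb i z) * er f b g z =
          ∑ v ∈ T, NLF.CT (fun z => m i z + bb i z) v * s v := by
        have h4 : ∀ᵐ z : ℂ, (m i z + bb i z) * er f b g z =
            ∑ v ∈ T, ((m i z + bb i z) / (z - v)) * s v := by
          filter_upwards [hs] with z hz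
          rw [hz, Finset.mul_sum]
          refine Finset.sum_congr rfl fun j _ => ?_
          ring
        rw [integral_congr_ae h4,
          integral_finsetSum _ (fun v _ => (FLX_int hCTA (hPR i) v).mul_const _)]
        refine Finset.sum_congr rfl fun j _ => ?_
        rw [integral_mul_const]
        rfl
      rw [h3] at h2
      exact h2
    have hsj : ∀ v ∈ T, ‖s v‖ ≤ C * (Fintype.card ι * (2 * Real.pi)) * Lg := by
      intro v hv
      refine (hM s v hv).trans ?_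
      have h2 : ∑ i, ‖∑ v ∈ T, NLF.CT (fun z => m i z + bb i z) v * s v‖ ≤
          ∑ _i : ι, 2 * Real.pi * Lg := Finset.sum_le_sum fun i _ => hI i
      rw [Finset.sum_const, Finset.card_univ, nsmul_eq_mul] at h2
      calc C * ∑ i, ‖∑ v ∈ T, NLF.CT (fun z => m i z + bb i z) v * s v‖
          ≤ C * (Fintype.card ι * (2 * Real.pi * Lg)) := by gcongr
        _ = C * (Fintype.card ι * (2 * Real.pi)) * Lg := by ring
    have hIer : ∫ z in ball (0 : ℂ) R, ‖er f b g z‖ ≤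
        C * (Fintype.card ι * (2 * Real.pi)) * Lg * D := by
      have h2 : ∀ᵐ z ∂(volume.restrict (ball (0 : ℂ) R)), ‖er f b g z‖ ≤
          ∑ v ∈ T, ‖s v‖ * (1 / ‖z - v‖) := by
        refine ae_restrict_of_ae ?_
        filter_upwards [hs] with z hz
        rw [hz]
        refine (norm_sum_le _ _).trans (Finset.sum_le_sum fun j _ => ?_)
        rw [norm_div, mul_one_div]
      have hint : ∀ v, Integrable (fun z : ℂ => ‖s v‖ * (1 / ‖z - v‖))
          (volume.restrict (ball (0 : ℂ) R)) := fun v => (FL_int hMI v hR0).const_mul _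
      calc ∫ z in ball (0 : ℂ) R, ‖er f b g z‖
          ≤ ∫ z in ball (0 : ℂ) R, ∑ v ∈ T, ‖s v‖ * (1 / ‖z - v‖) :=
            integral_mono_of_nonneg (Eventually.of_forall fun z => norm_nonneg _)
              (integrable_finsetSum _ fun j _ => hint j) h2
        _ = ∑ v ∈ T, ‖s v‖ * ∫ z in ball (0 : ℂ) R, 1 / ‖z - v‖ := by
            rw [integral_finsetSum _ fun j _ => hint j]
            refine Finset.sum_congr rfl fun j _ => ?_
            rw [integral_const_mul]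
        _ ≤ ∑ v ∈ T, (C * (Fintype.card ι * (2 * Real.pi)) * Lg) *
              ∫ z in ball (0 : ℂ) R, 1 / ‖z - v‖ := by
            refine Finset.sum_le_sum fun v hv => ?_
            exact mul_le_mul_of_nonneg_right (hsj v hv) (integral_nonneg fun z => by positivity)
        _ = C * (Fintype.card ι * (2 * Real.pi)) * Lg * D := by rw [← Finset.mul_sum]
    have h5 := hTH k b g hk2 hC' h1 hdist
    rw [div_le_iff₀ hK₁0]
    calc ε ≤ 2 * Real.pi * Lg + 4 * ∫ z in ball (0 : ℂ) R, ‖er f b g z‖ := h5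
      _ ≤ 2 * Real.pi * Lg + 4 * (C * (Fintype.card ι * (2 * Real.pi)) * Lg * D) := by gcongr
      _ = Lg * K₁ := by rw [hK₁]; ring
  · -- fixed points
    refine (min_le_right _ _).trans ?_
    have hk1 : k = 1 := by omega
    subst hk1
    have hfx : f.eval z = z := by
      have h2 := Function.isPeriodicPt_minimalPeriod (fun w : ℂ => f.eval w) z
      rw [hper] at h2
      simpa [Function.IsPeriodicPt, Function.IsFixedPt] using h2
    have hml : mlt f 1 z = fd f z := by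
      unfold mlt fd
      rw [Function.iterate_one, Polynomial.deriv]
    rw [hml] at h1 ⊢
    exact hfix z hfx h1

end PPS
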