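import Pool.Agent.helper25.PP.Spec

/-!
# Module CH3 of project pp (MP_45d809_mp): sets of size s left by few edges
-/

set_option autoImplicit false

namespace PP

open Finset SimpleGraph CT

lemma CH3_union {V : Type} [Fintype V] [DecidableEq V] (h2 : HS_stmt) (s : ℕ) :
    cc (fun G : SimpleGraph V => ∃ S : Finset V, S.card = s ∧ dout G S ≤ 12) ≤
      ∑ S ∈ (univ : Finset V).powersetCard s, ∑ j ∈ Finset.range 7,
        cc (fun G : SimpleGraph V => dout G S = 2 * j) := by
  classical
  have hsub : RP (fun G : SimpleGraph V => ∃ S : Finset V, S.card = s ∧ dout G S ≤ 12) ⊆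
      ((univ : Finset V).powersetCard s).biUnion (fun S => (Finset.range 7).biUnion
        (fun j => RP (fun G : SimpleGraph V => dout G S = 2 * j))) := by
    intro G hG
    rw [mem_cc] at hG
    obtain ⟨hR, S, hS, hd⟩ := hG
    have hev := h2 V G S hR
    obtain ⟨⟨a, ha⟩, hsum, -⟩ := hev
    rw [Finset.mem_biUnion]
    refine ⟨S, Finset.mem_powersetCard.mpr ⟨Finset.subset_univ _, hS⟩, ?_⟩
    rw [Finset.mem_biUnion]
    refine ⟨dout G S / 2, Finset.mem_range.mpr (by omega), ?_⟩
    rw [mem_cc]
    exact ⟨hR, by omega⟩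
  unfold cc
  refine (Finset.card_le_card hsub).trans ?_
  refine Finset.card_biUnion_le.trans ?_
  exact Finset.sum_le_sum (fun S _ => Finset.card_biUnion_le)

theorem CH3 (h1 : CH2_stmt) (h2 : HS_stmt) : CH3_stmt := by
  intro V _ _ s hs hsn hn
  set n := Fintype.card V with hndef
  set C : ℕ := (2 * n ^ 2) ^ 6 * cc (fun _ : SimpleGraph V => True) with hC
  have hterm : ∀ S ∈ (univ : Finset V).powersetCard s, ∀ j ∈ Finset.range 7,
      2 ^ s * (2 * (n - s)).choose s * cc (fun G : SimpleGraph V => dout G S = 2 * j) ≤ C := by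
    intro S hS j hj
    have hcard : S.card = s := (Finset.mem_powersetCard.mp hS).2
    have hcompl : Sᶜ.card = n - s := by
      rw [Finset.card_compl, hcard]
    have hj' := Finset.mem_range.mp hj
    have h := h1 V S j (by omega) (by omega) (by omega) (by omega)
    rw [hcompl, hcard] at h
    exact h
  have hbig : 2 ^ s * (2 * (n - s)).choose s *
      cc (fun G : SimpleGraph V => ∃ S : Finset V, S.card = s ∧ dout G S ≤ 12) ≤
      n.choose s * (7 * C) := by
    calc 2 ^ s * (2 * (n - s)).choose s *
        cc (fun G : SimpleGraph V => ∃ S : Finset V, S.card = s ∧ dout G S ≤ 12)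
        ≤ 2 ^ s * (2 * (n - s)).choose s *
          ∑ S ∈ (univ : Finset V).powersetCard s, ∑ j ∈ Finset.range 7,
            cc (fun G : SimpleGraph V => dout G S = 2 * j) :=
          Nat.mul_le_mul_left _ (CH3_union h2 s)
      _ = ∑ S ∈ (univ : Finset V).powersetCard s, ∑ j ∈ Finset.range 7,
            2 ^ s * (2 * (n - s)).choose s *
              cc (fun G : SimpleGraph V => dout G S = 2 * j) := by
          rw [Finset.mul_sum]
          refine Finset.sum_congr rfl (fun S _ => ?_)
          rw [Finset.mul_sum]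
      _ ≤ ∑ S ∈ (univ : Finset V).powersetCard s, ∑ j ∈ Finset.range 7, C :=
          Finset.sum_le_sum (fun S hS => Finset.sum_le_sum (fun j hj => hterm S hS j hj))
      _ = n.choose s * (7 * C) := by
          rw [Finset.sum_const, Finset.sum_const, Finset.card_range, Finset.card_powersetCard,
            Finset.card_univ, smul_eq_mul, smul_eq_mul]
  have hch : n.choose s ≤ (2 * (n - s)).choose s := Nat.choose_le_choose s (by omega)
  have hpos : 0 < (2 * (n - s)).choose s := Nat.choose_pos (by omega)
  have hfin : (2 * (n - s)).choose s * (2 ^ s *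
      cc (fun G : SimpleGraph V => ∃ S : Finset V, S.card = s ∧ dout G S ≤ 12)) ≤
      (2 * (n - s)).choose s * (7 * C) := by
    calc (2 * (n - s)).choose s * (2 ^ s *
        cc (fun G : SimpleGraph V => ∃ S : Finset V, S.card = s ∧ dout G S ≤ 12))
        = 2 ^ s * (2 * (n - s)).choose s *
          cc (fun G : SimpleGraph V => ∃ S : Finset V, S.card = s ∧ dout G S ≤ 12) := by ring
      _ ≤ n.choose s * (7 * C) := hbig
      _ ≤ (2 * (n - s)).choose s * (7 * C) := Nat.mul_le_mul_right _ hch
  have hres := Nat.le_of_mul_le_mul_left hfin hpos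
  rw [hC] at hres
  calc 2 ^ s * cc (fun G : SimpleGraph V => ∃ S : Finset V, S.card = s ∧ dout G S ≤ 12)
      ≤ 7 * ((2 * n ^ 2) ^ 6 * cc (fun _ : SimpleGraph V => True)) := hres
    _ = 7 * (2 * n ^ 2) ^ 6 * cc (fun _ : SimpleGraph V => True) := by ring

end PP
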